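import Pool.Agent.Y33.RN.Stm

/-!
# Geodesics of the cone metric run along relator lines (RN-RB3)

Author helper584, for project RN of helper33.
-/

set_option autoImplicit false

namespace Pool.Agent.Y584.RN

open Pool.Agent.TH54.BU Pool.Agent.H17R2 Pool.Agent.Y33.RN

/-! ## lines with a large overlap -/

theorem same_line {Γ V : Type*} [Group Γ] [MulAction Γ V] (S : LineFam Γ V) (x y : S.fam)
    (s t : ℤ) (h : x.1.2 ≤ S.K * |S.T.pr x.1.1 (y.1.1 s) - S.T.pr x.1.1 (y.1.1 t)|) :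
    ∀ k, ∃ c, y.1.1 k = x.1.1 c := by
  wlog hlt : S.T.pr x.1.1 (y.1.1 s) < S.T.pr x.1.1 (y.1.1 t) generalizing s t
  · rcases (not_lt.1 hlt).lt_or_eq with h1 | h1
    · exact this t s (by rwa [abs_sub_comm]) h1
    · exfalso
      rw [h1] at h
      have h2 := S.KL _ x.2
      have h3 := S.hK
      simp at h
      omega
  obtain ⟨b, ε, hε, hk⟩ := (S.line _ x.2).overlap (S.line _ y.2) s t hlt
  set a := S.T.pr x.1.1 (y.1.1 s)
  set a' := S.T.pr x.1.1 (y.1.1 t)
  have key : ((fun k => x.1.1 (k + a)), x.1.2) = ((fun k => y.1.1 (b + ε * k)), y.1.2) := by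
    apply S.sc _ (S.shift_mem a x.1 x.2) _ (S.repar_mem y b ε hε) (a' - a).toNat
    · intro k hk'
      have := hk k (by positivity) (by omega)
      simp only
      rw [add_comm, this]
    · left
      rw [abs_sub_comm, abs_of_pos (sub_pos.2 hlt)] at h
      rw [Int.toNat_of_nonneg (by omega)]
      exact h
  have h1 : ∀ k, x.1.1 (k + a) = y.1.1 (b + ε * k) := fun k => congrFun (Prod.ext_iff.1 key).1 k
  have hε2 : ε * ε = 1 := by rcases hε with h | h <;> subst h <;> norm_num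
  intro k
  refine ⟨ε * (k - b) + a, ?_⟩
  rw [h1, show b + ε * (ε * (k - b)) = k by linear_combination (k - b) * hε2]

/-! ## geodesics -/

section geod

variable {G : Type*} [Group G] {H : GH G} {γ : ℕ → G} {n : ℕ}

theorem geod_ub (h : H.Geod γ n) {i : ℕ} (k : ℕ) (hk : i + k ≤ n) :
    H.d (γ i) (γ (i + k)) ≤ k := by
  induction k with
  | zero => rw [add_zero, H.d_self]
  | succ k ih =>
    have h1 := ih (by omega)
    have h2 := h.1 (i + k) (by omega)
    have h3 := H.d_tri (γ i) (γ (i + k)) (γ (i + k + 1))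
    rw [← add_assoc]
    omega

theorem geod_eq (h : H.Geod γ n) {i : ℕ} (k : ℕ) (hk : i + k ≤ n) :
    H.d (γ i) (γ (i + k)) = k := by
  apply le_antisymm (geod_ub h k hk)
  have h1 := geod_ub h (i := 0) i (by omega)
  have h2 := geod_ub h (i := i + k) (n - (i + k)) (by omega)
  have h3 := H.d_tri (γ 0) (γ i) (γ n)
  have h4 := H.d_tri (γ i) (γ (i + k)) (γ n)
  have h5 := h.2
  rw [zero_add] at h1
  rw [show i + k + (n - (i + k)) = n by omega] at h2
  omega

theorem geod_init (h : H.Geod γ n) {i : ℕ} (hi : i ≤ n) : H.Geod γ i := by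
  refine ⟨fun k hk => h.1 k (by omega), ?_⟩
  have := geod_eq h (i := 0) i (by omega)
  rwa [zero_add] at this

theorem geod_tail (h : H.Geod γ n) {i : ℕ} (hi : i ≤ n) :
    H.Geod (fun k => γ (i + k)) (n - i) := by
  refine ⟨fun k hk => ?_, ?_⟩
  · have := h.1 (i + k) (by omega)
    rwa [add_assoc] at this
  · have := geod_eq h (i := i) (n - i) (by omega)
    simpa using this

end geod

/-- **geodesics of the cone metric with a large projection to a relator line run along it** -/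
theorem rb3 : S_RB3 := by
  intro R
  refine ⟨2 * R + 10, ?_⟩
  intro K W E hW hE x hx γ n hγ hbig
  by_contra hcon
  have hL : W.toFam.K ≤ x.2 := W.toFam.KL x hx
  have hK : 20 ≤ W.K := W.hK
  have hKL : W.K ≤ x.2 := hL
  have hline : (fTree (Fin 5)).IsLine x.1 := W.toFam.line x hx
  let a : ℕ → ℤ := fun i => (fTree (Fin 5)).pr x.1 (γ i)
  -- one step
  have h1 : ∀ i < n, W.K * |a i - a (i + 1)| ≤ x.2 := by
    intro i hi
    have h2 : E.len ((γ i)⁻¹ * γ (i + 1)) ≤ 1 := hγ.1 i hi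
    rcases (hE.one _).1 h2 with h3 | ⟨y, hy, p, q, hpq⟩
    · have h4 : |a i - a (i + 1)| ≤ fd (γ i) (γ (i + 1)) := hline.lip (γ i) (γ (i + 1))
      have h5 : fd (γ i) (γ (i + 1)) ≤ 1 := by
        unfold fd
        exact_mod_cast h3
      have h6 : |a i - a (i + 1)| ≤ 1 := h4.trans h5
      nlinarith
    · by_contra hc
      have hc' := (not_le.1 hc).le
      -- the translated line
      let g : F5 := γ i * (y.1 p)⁻¹
      have hy' := W.toFam.smul_mem g y hy
      have e1 : g • y.1 p = γ i := by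
        change γ i * (y.1 p)⁻¹ * y.1 p = γ i
        group
      have e2 : g • y.1 q = γ (i + 1) := by
        change γ i * (y.1 p)⁻¹ * y.1 q = γ (i + 1)
        rw [mul_assoc, ← hpq]
        group
      have key := same_line W.toFam ⟨x, hx⟩ ⟨_, hy'⟩ p q (by
        change x.2 ≤ W.K * |(fTree (Fin 5)).pr x.1 (g • y.1 p) -
          (fTree (Fin 5)).pr x.1 (g • y.1 q)|
        rw [e1, e2]
        exact hc')
      obtain ⟨c1, hc1⟩ := key p
      obtain ⟨c2, hc2⟩ := key q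
      apply hcon
      refine ⟨i, hi, c1, c2, ?_, ?_⟩
      · rw [← e1]; exact hc1
      · rw [← e2]; exact hc2
  have h2 : ∀ i k : ℕ, i + k ≤ n → W.K * |a i - a (i + k)| ≤ k * x.2 := by
    intro i k
    induction k with
    | zero => intro _; simp
    | succ k ih =>
      intro hk
      have e1 := ih (by omega)
      have e2 := h1 (i + k) (by omega)
      have e3 := abs_sub_le (a i) (a (i + k)) (a (i + k + 1))
      have e4 : W.K * |a i - a (i + k + 1)| ≤ W.K * (|a i - a (i + k)| +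
          |a (i + k) - a (i + k + 1)|) := by
        apply mul_le_mul_of_nonneg_left e3
        omega
      rw [← add_assoc]
      push_cast
      linarith
  -- points near the line
  let I : ℕ → Prop := fun i => ∃ c : ℤ, E.d (x.1 c) (γ i) ≤ R
  have hI : ∀ i k : ℕ, i + k ≤ n → I i → I (i + k) → k ≤ 2 * R + 1 := by
    rintro i k hk ⟨c1, hc1⟩ ⟨c2, hc2⟩
    have e1 := geod_eq hγ k hk
    have e2 : E.d (x.1 c1) (x.1 c2) ≤ 1 := (hE.one _).2 (Or.inr ⟨x, hx, c1, c2, rfl⟩)
    have e3 := E.d_tri (γ i) (x.1 c1) (γ (i + k))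
    have e4 := E.d_tri (x.1 c1) (x.1 c2) (γ (i + k))
    rw [E.d_comm (γ i) (x.1 c1)] at e3
    omega
  have h3 : ∀ i ≤ n, (∀ j ≤ i, ¬ I j) → a i = a 0 := by
    intro i hi hj
    by_contra hne
    have e1 := hline.d_eq (γ 0) (γ i) (fun h => hne h.symm)
    change fd (γ 0) (γ i) = fd (γ 0) (x.1 (a 0)) + |a 0 - a i| + fd (x.1 (a i)) (γ i) at e1
    have e2 := fd_tri (x.1 (a 0)) (x.1 (a i)) (γ i)
    have e3 : fd (x.1 (a 0)) (x.1 (a i)) = |a 0 - a i| := hline (a 0) (a i)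
    have e4 := fd_tri (γ 0) (x.1 (a 0)) (γ i)
    obtain ⟨j, hj1, hj2⟩ := hE.near γ i (geod_init hγ hi) (x.1 (a 0)) (by omega)
    exact hj j hj1 ⟨_, hj2⟩
  have h4 : ∀ i ≤ n, (∀ j, i ≤ j → j ≤ n → ¬ I j) → a i = a n := by
    intro i hi hj
    by_contra hne
    have e1 := hline.d_eq (γ i) (γ n) hne
    change fd (γ i) (γ n) = fd (γ i) (x.1 (a i)) + |a i - a n| + fd (x.1 (a n)) (γ n) at e1
    have e2 := fd_tri (x.1 (a i)) (x.1 (a n)) (γ n)
    have e3 : fd (x.1 (a i)) (x.1 (a n)) = |a i - a n| := hline (a i) (a n)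
    have e4 := fd_tri (γ i) (x.1 (a i)) (γ n)
    have e5 : i + (n - i) = n := by omega
    obtain ⟨j, hj1, hj2⟩ := hE.near _ _ (geod_tail hγ hi) (x.1 (a i)) (by
      rw [e5]
      change fd (γ i) (x.1 (a i)) + fd (x.1 (a i)) (γ n) = fd (γ i) (γ n)
      omega)
    exact hj (i + j) (by omega) (by omega) ⟨_, hj2⟩
  have hbig' : ((2 * R + 10 : ℕ) : ℤ) * x.2 ≤ W.K * |a 0 - a n| := hbig
  push_cast at hbig'
  by_cases hex : ∃ i, i ≤ n ∧ I i
  · classical
    obtain ⟨i0, hi0, hi0'⟩ := hex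
    let i1 := Nat.find (⟨i0, hi0, hi0'⟩ : ∃ i, i ≤ n ∧ I i)
    have g1 : i1 ≤ n ∧ I i1 := Nat.find_spec (⟨i0, hi0, hi0'⟩ : ∃ i, i ≤ n ∧ I i)
    have g2 : ∀ j, j < i1 → ¬ (j ≤ n ∧ I j) := fun j hj =>
      Nat.find_min (⟨i0, hi0, hi0'⟩ : ∃ i, i ≤ n ∧ I i) hj
    let i2 := Nat.findGreatest I n
    have g3 : I i2 := Nat.findGreatest_spec hi0 hi0'
    have g4 : i2 ≤ n := Nat.findGreatest_le n
    have g5 : ∀ j, i2 < j → j ≤ n → ¬ I j := fun j h1 h2 => Nat.findGreatest_is_greatest h1 h2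
    have g6 : i1 ≤ i2 := by
      by_contra h
      exact g2 i2 (not_le.1 h) ⟨g4, g3⟩
    have g7 : i2 - i1 ≤ 2 * R + 1 := by
      apply hI i1 (i2 - i1) (by omega) g1.2
      rw [show i1 + (i2 - i1) = i2 by omega]
      exact g3
    -- the left end
    obtain ⟨l, hl1, hl2, hl3⟩ : ∃ l, l ≤ i1 ∧ i1 ≤ l + 1 ∧ a l = a 0 := by
      rcases Nat.eq_zero_or_pos i1 with h | h
      · exact ⟨0, by omega, by omega, rfl⟩
      · exact ⟨i1 - 1, by omega, by omega, h3 _ (by omega) (fun j hj hIj =>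
          g2 j (by omega) ⟨by omega, hIj⟩)⟩
    obtain ⟨r, hr1, hr2, hr3, hr4⟩ : ∃ r, i2 ≤ r ∧ r ≤ i2 + 1 ∧ r ≤ n ∧ a r = a n := by
      rcases g4.eq_or_lt with h | h
      · exact ⟨i2, le_rfl, by omega, g4, by rw [h]⟩
      · exact ⟨i2 + 1, by omega, le_rfl, h, h4 _ h (fun j hj1 hj2 => g5 j (by omega) hj2)⟩
    have g8 := h2 l (r - l) (by omega)
    rw [show l + (r - l) = r by omega, hl3, hr4] at g8
    have g9 : ((r - l : ℕ) : ℤ) ≤ 2 * R + 3 := by omega
    have g10 : ((r - l : ℕ) : ℤ) * x.2 ≤ (2 * R + 3) * x.2 :=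
      mul_le_mul_of_nonneg_right g9 (by omega)
    nlinarith
  · push Not at hex
    have e1 := h3 n le_rfl (fun j hj => hex j hj)
    rw [e1, sub_self, abs_zero, mul_zero] at hbig'
    nlinarith

end Pool.Agent.Y584.RN
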